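import Pool.Agent.Helper70.GB.Types

/-!
# MP_02f2ca_gt, module A1 : auxiliary facts for the cut condition
-/

namespace GB

namespace Cut

open Classical

variable {G : Type*} [AddCommGroup G] (ι : ℤ × ℤ →+ G)

/-- Directed boundary edges `(e, g)` with `g ∈ F` and `g + e ∉ F`. -/
noncomputable def edges (F : Finset G) : Finset ((ℤ × ℤ) × G) :=
  (dirs ×ˢ F).filter (fun p => p.2 + ι p.1 ∉ F)

theorem card_edges (F : Finset G) : (edges ι F).card = bdry ι F := by
  unfold edges bdry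
  simp only [Finset.card_filter, Finset.sum_product]

theorem mem_edges (F : Finset G) (p : (ℤ × ℤ) × G) :
    p ∈ edges ι F ↔ p.1 ∈ dirs ∧ p.2 ∈ F ∧ p.2 + ι p.1 ∉ F := by
  simp only [edges, Finset.mem_filter, Finset.mem_product, and_assoc]

/-- sup-norm balls as finite sets -/
noncomputable def sq (t : ℕ) : Finset (ℤ × ℤ) := Finset.Icc (-(t : ℤ)) t ×ˢ Finset.Icc (-(t : ℤ)) t

theorem mem_sq (t : ℕ) (u : ℤ × ℤ) : u ∈ sq t ↔ InSq t u := by
  simp only [sq, InSq, abs_le, Finset.mem_product, Finset.mem_Icc]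

theorem card_sq (t : ℕ) : (sq t).card = (2 * t + 1) ^ 2 := by
  have h : ((t : ℤ) + 1 - -(t : ℤ)).toNat = 2 * t + 1 := by omega
  simp only [sq, Finset.card_product, Int.card_Icc, h, pow_two]

/-- The square of radius `t` around `z`. -/
noncomputable def Q (z : G) (t : ℕ) : Finset G := (sq t).image (fun u => z + ι u)

theorem mem_Q (z : G) (t : ℕ) (x : G) : x ∈ Q ι z t ↔ ∃ u, InSq t u ∧ x = z + ι u := by
  simp only [Q, Finset.mem_image, mem_sq]
  constructor
  · rintro ⟨u, hu, rfl⟩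
    exact ⟨u, hu, rfl⟩
  · rintro ⟨u, hu, rfl⟩
    exact ⟨u, hu, rfl⟩

theorem card_Q (z : G) (t : ℕ) : (Q ι z t).card ≤ (2 * t + 1) ^ 2 := by
  rw [← card_sq]
  exact Finset.card_image_le

theorem InSq.mono {s t : ℕ} (h : s ≤ t) {u : ℤ × ℤ} (hu : InSq s u) : InSq t u := by
  unfold InSq at *
  omega

theorem InSq.sub {s t r : ℕ} (h : s + t ≤ r) {u v : ℤ × ℤ} (hu : InSq s u) (hv : InSq t v) :
    InSq r (u - v) := by
  unfold InSq at *
  simp only [Prod.fst_sub, Prod.snd_sub, abs_le] at *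
  omega

theorem Q_mono (z : G) {s t : ℕ} (h : s ≤ t) : Q ι z s ⊆ Q ι z t := by
  intro x hx
  rw [mem_Q] at *
  obtain ⟨u, hu, rfl⟩ := hx
  exact ⟨u, InSq.mono h hu, rfl⟩

theorem mem_dirs (e : ℤ × ℤ) :
    e ∈ dirs ↔ e = (1, 0) ∨ e = (-1, 0) ∨ e = (0, 1) ∨ e = (0, -1) := by
  simp [dirs]

theorem neg_mem_dirs {e : ℤ × ℤ} (he : e ∈ dirs) : -e ∈ dirs := by
  rw [mem_dirs] at *
  rcases he with rfl | rfl | rfl | rfl <;> simp

theorem walk (q : ℕ → Prop) (N : ℕ) (h : ∀ k < N, (q k ↔ q (k + 1))) :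
    ∀ k ≤ N, (q k ↔ q 0) := by
  intro k
  induction k with
  | zero => intro _; rfl
  | succ k ih => intro hk; exact (h k (by omega)).symm.trans (ih (by omega))

/-- sup-norm spheres -/
def OnRing (t : ℕ) (u : ℤ × ℤ) : Prop := InSq t u ∧ (|u.1| = t ∨ |u.2| = t)

theorem ring_const (p : ℤ × ℤ → Prop) (t : ℕ)
    (h : ∀ u, OnRing t u → ∀ e ∈ dirs, OnRing t (u + e) → p u → p (u + e)) :
    ∀ u, OnRing t u → (p u ↔ p (t, t)) := by
  have hs : ∀ u v, OnRing t u → OnRing t v → v - u ∈ dirs → (p u ↔ p v) := by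
    intro u v hu hv hd
    constructor
    · intro hp
      have := h u hu (v - u) hd (by simpa using hv) hp
      simpa using this
    · intro hp
      have := h v hv (u - v) (by simpa using neg_mem_dirs hd) (by simpa using hu) hp
      simpa using this
  have top : ∀ k : ℕ, k ≤ 2 * t → (p ((t : ℤ) - k, (t : ℤ)) ↔ p (t, t)) := by
    have := walk (fun k => p ((t : ℤ) - k, (t : ℤ))) (2 * t) (by
      intro k hk
      refine hs _ _ ?_ ?_ ?_
      · simp only [OnRing, InSq, abs_le]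
        refine ⟨by omega, Or.inr (by simp)⟩
      · simp only [OnRing, InSq, abs_le]
        refine ⟨by push_cast; omega, Or.inr (by simp)⟩
      · rw [mem_dirs]
        right; left
        ext <;> simp)
    intro k hk
    simpa using this k hk
  have bot : ∀ k : ℕ, k ≤ 2 * t → (p ((t : ℤ) - k, -(t : ℤ)) ↔ p (t, -t)) := by
    have := walk (fun k => p ((t : ℤ) - k, -(t : ℤ))) (2 * t) (by
      intro k hk
      refine hs _ _ ?_ ?_ ?_
      · simp only [OnRing, InSq, abs_le]
        refine ⟨by omega, Or.inr (by simp)⟩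
      · simp only [OnRing, InSq, abs_le]
        refine ⟨by push_cast; omega, Or.inr (by simp)⟩
      · rw [mem_dirs]
        right; left
        ext <;> simp)
    intro k hk
    simpa using this k hk
  have rgt : ∀ k : ℕ, k ≤ 2 * t → (p ((t : ℤ), (t : ℤ) - k) ↔ p (t, t)) := by
    have := walk (fun k => p ((t : ℤ), (t : ℤ) - k)) (2 * t) (by
      intro k hk
      refine hs _ _ ?_ ?_ ?_
      · simp only [OnRing, InSq, abs_le]
        refine ⟨by omega, Or.inl (by simp)⟩
      · simp only [OnRing, InSq, abs_le]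
        refine ⟨by push_cast; omega, Or.inl (by simp)⟩
      · rw [mem_dirs]
        right; right; right
        ext <;> simp)
    intro k hk
    simpa using this k hk
  have lft : ∀ k : ℕ, k ≤ 2 * t → (p (-(t : ℤ), (t : ℤ) - k) ↔ p (-t, t)) := by
    have := walk (fun k => p (-(t : ℤ), (t : ℤ) - k)) (2 * t) (by
      intro k hk
      refine hs _ _ ?_ ?_ ?_
      · simp only [OnRing, InSq, abs_le]
        refine ⟨by omega, Or.inl (by simp)⟩
      · simp only [OnRing, InSq, abs_le]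
        refine ⟨by push_cast; omega, Or.inl (by simp)⟩
      · rw [mem_dirs]
        right; right; right
        ext <;> simp)
    intro k hk
    simpa using this k hk
  rintro ⟨a, b⟩ ⟨⟨ha, hb⟩, hab⟩
  simp only [abs_le] at ha hb
  simp only at hab
  have e1 : p (-(t : ℤ), (t : ℤ)) ↔ p (t, t) := by
    have := top (2 * t) le_rfl
    rwa [show ((t : ℤ) - (2 * t : ℕ)) = -t by push_cast; ring] at this
  have e2 : p ((t : ℤ), -(t : ℤ)) ↔ p (t, t) := by
    have := rgt (2 * t) le_rfl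
    rwa [show ((t : ℤ) - (2 * t : ℕ)) = -t by push_cast; ring] at this
  rcases hab with hab | hab
  · rcases abs_eq (by positivity : (0 : ℤ) ≤ t) |>.1 hab with rfl | rfl
    · have := rgt (((t : ℤ) - b).toNat) (by omega)
      rwa [Int.toNat_of_nonneg (by omega), sub_sub_cancel] at this
    · have := lft (((t : ℤ) - b).toNat) (by omega)
      rw [Int.toNat_of_nonneg (by omega), sub_sub_cancel] at this
      exact this.trans e1
  · rcases abs_eq (by positivity : (0 : ℤ) ≤ t) |>.1 hab with rfl | rfl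
    · have := top (((t : ℤ) - a).toNat) (by omega)
      rwa [Int.toNat_of_nonneg (by omega), sub_sub_cancel] at this
    · have := bot (((t : ℤ) - a).toNat) (by omega)
      rw [Int.toNat_of_nonneg (by omega), sub_sub_cancel] at this
      exact this.trans e2

/-- Boundary edges inside a square. -/
noncomputable def inner (z : G) (t : ℕ) (F : Finset G) : Finset ((ℤ × ℤ) × G) :=
  (edges ι F).filter (fun p => p.2 ∈ Q ι z t ∧ p.2 + ι p.1 ∈ Q ι z t)

theorem inner_mono (z : G) {s t : ℕ} (h : s ≤ t) (F : Finset G) :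
    inner ι z s F ⊆ inner ι z t F := by
  intro p hp
  simp only [inner, Finset.mem_filter] at *
  exact ⟨hp.1, Q_mono ι z h hp.2.1, Q_mono ι z h hp.2.2⟩

theorem inner_self (z : G) (t : ℕ) : inner ι z t (Q ι z t) = ∅ := by
  apply Finset.eq_empty_of_forall_notMem
  intro p hp
  simp only [inner, Finset.mem_filter, mem_edges] at hp
  exact hp.1.2.2 hp.2.2

/-- A ring without boundary edges is full or empty. -/
theorem exists_ring (hι : Function.Injective ι) (z : G) (F : Finset G) (H S M : ℕ) (hS : H + M + 1 ≤ S)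
    (hM : (inner ι z S F).card < M) :
    ∃ t, H < t ∧ t ≤ S ∧ ((∀ u, OnRing t u → z + ι u ∈ F) ∨ (∀ u, OnRing t u → z + ι u ∉ F)) := by
  by_contra hcon
  push Not at hcon
  have key : ∀ t ∈ Finset.Ioc H S, ∃ p ∈ inner ι z S F, ∃ u, OnRing t u ∧ p.2 = z + ι u := by
    intro t ht
    rw [Finset.mem_Ioc] at ht
    obtain ⟨⟨u, hu, huF⟩, ⟨v, hv, hvF⟩⟩ := hcon t ht.1 ht.2
    by_contra hno
    push Not at hno
    have hc := ring_const (fun u => z + ι u ∈ F) t (by
      intro u hu e he hue hp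
      by_contra hq
      refine hno (e, z + ι u) ?_ u hu rfl
      simp only [inner, Finset.mem_filter, mem_edges]
      refine ⟨⟨he, hp, ?_⟩, ?_, ?_⟩
      · rw [add_assoc, ← map_add]
        exact hq
      · rw [mem_Q]
        exact ⟨u, InSq.mono ht.2 hu.1, rfl⟩
      · rw [mem_Q]
        exact ⟨u + e, InSq.mono ht.2 hue.1, by rw [add_assoc, ← map_add]⟩)
    exact huF ((hc u hu).2 ((hc v hv).1 hvF))
  choose! P hP using key
  have hring : ∀ t u, OnRing t u → (t : ℤ) = max |u.1| |u.2| := by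
    rintro t u ⟨⟨h1, h2⟩, h3 | h3⟩
    · rw [max_eq_left (by omega), h3]
    · rw [max_eq_right (by omega), h3]
  have hinj : Set.InjOn P (Finset.Ioc H S) := by
    intro t ht t' ht' htt
    obtain ⟨-, u, hu, hu'⟩ := hP t ht
    obtain ⟨-, v, hv, hv'⟩ := hP t' ht'
    rw [htt, hv'] at hu'
    have huv : v = u := hι (add_left_cancel hu')
    subst huv
    have := (hring t v hu).trans (hring t' v hv).symm
    exact_mod_cast this
  have := Finset.card_le_card_of_injOn P (fun t ht => (hP t ht).1) hinj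
  rw [Nat.card_Ioc] at this
  omega

theorem onRing_of_add {t : ℕ} {u e : ℤ × ℤ} (he : e ∈ dirs) (hu : InSq t u)
    (h : ¬ InSq t (u + e)) : OnRing t u := by
  refine ⟨hu, ?_⟩
  by_contra hne
  push Not at hne
  apply h
  obtain ⟨h1, h2⟩ := hu
  have h1' : |u.1| ≤ (t : ℤ) - 1 := by
    have := lt_of_le_of_ne h1 hne.1
    omega
  have h2' : |u.2| ≤ (t : ℤ) - 1 := by
    have := lt_of_le_of_ne h2 hne.2
    omega
  rw [abs_le] at h1' h2'
  rw [mem_dirs] at he
  simp only [InSq, abs_le, Prod.fst_add, Prod.snd_add]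
  rcases he with rfl | rfl | rfl | rfl <;> simp only <;> omega

theorem edges_modify (z : G) (t : ℕ) (F F' : Finset G)
    (h1 : ∀ x, x ∉ Q ι z t → (x ∈ F' ↔ x ∈ F))
    (h2 : (∀ x ∈ Q ι z t, x ∈ F') ∨ (∀ x ∈ Q ι z t, x ∉ F'))
    (h3 : ∀ u, OnRing t u → (z + ι u ∈ F' ↔ z + ι u ∈ F)) :
    edges ι F' ⊆ edges ι F \ inner ι z t F := by
  rintro ⟨e, g⟩ hp
  rw [mem_edges] at hp
  obtain ⟨he, hg, hge⟩ := hp
  simp only at he hg hge
  rw [Finset.mem_sdiff, mem_edges]
  simp only [inner, Finset.mem_filter, mem_edges]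
  by_cases hgQ : g ∈ Q ι z t
  · by_cases hgeQ : g + ι e ∈ Q ι z t
    · exfalso
      rcases h2 with h2 | h2
      · exact hge (h2 _ hgeQ)
      · exact h2 _ hgQ hg
    · obtain ⟨u, hu, hgu⟩ := (mem_Q ..).1 hgQ
      have hring : OnRing t u := by
        apply onRing_of_add he hu
        intro hcon
        apply hgeQ
        rw [mem_Q]
        exact ⟨u + e, hcon, by rw [hgu, add_assoc, ← map_add]⟩
      have h3' := h3 u hring
      rw [← hgu] at h3'
      exact ⟨⟨he, h3'.1 hg, fun h => hge ((h1 _ hgeQ).2 h)⟩, fun h => hgeQ h.2.2⟩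
  · by_cases hgeQ : g + ι e ∈ Q ι z t
    · obtain ⟨u, hu, hgu⟩ := (mem_Q ..).1 hgeQ
      have hring : OnRing t u := by
        apply onRing_of_add (neg_mem_dirs he) hu
        intro hcon
        apply hgQ
        rw [mem_Q]
        refine ⟨u + -e, hcon, ?_⟩
        rw [map_add, map_neg, ← add_assoc, ← hgu, add_neg_cancel_right]
      have h3' := h3 u hring
      rw [← hgu] at h3'
      exact ⟨⟨he, (h1 _ hgQ).1 hg, fun h => hge (h3'.2 h)⟩, fun h => hgQ h.2.1⟩
    · exact ⟨⟨he, (h1 _ hgQ).1 hg, fun h => hge ((h1 _ hgeQ).2 h)⟩, fun h => hgQ h.2.1⟩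

omit [AddCommGroup G] in
theorem sum_modify (h : G → ℤ) (R F F' : Finset G) (h1 : ∀ x, x ∉ R → (x ∈ F' ↔ x ∈ F)) :
    ∑ x ∈ F', h x - ∑ x ∈ F, h x = ∑ x ∈ F' ∩ R, h x - ∑ x ∈ F ∩ R, h x := by
  have e : F' \ R = F \ R := by
    ext x
    simp only [Finset.mem_sdiff]
    constructor
    · rintro ⟨a, b⟩
      exact ⟨(h1 x b).1 a, b⟩
    · rintro ⟨a, b⟩
      exact ⟨(h1 x b).2 a, b⟩
  have a1 := Finset.sum_inter_add_sum_sdiff F' R h
  have a2 := Finset.sum_inter_add_sum_sdiff F R h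
  rw [e] at a1
  linarith

omit [AddCommGroup G] in
theorem abs_sum_modify (h : G → ℤ) (R F F' : Finset G) (h1 : ∀ x, x ∉ R → (x ∈ F' ↔ x ∈ F))
    (h2 : (∀ x ∈ R, x ∈ F') ∨ (∀ x ∈ R, x ∉ F')) :
    |∑ x ∈ F', h x - ∑ x ∈ F, h x| ≤ ∑ x ∈ R, |h x| := by
  rw [sum_modify h R F F' h1]
  rcases h2 with h2 | h2
  · have e1 : F' ∩ R = R := Finset.inter_eq_right.2 h2
    have e2 : ∑ x ∈ R, h x = ∑ x ∈ F ∩ R, h x + ∑ x ∈ R \ F, h x := by
      rw [Finset.inter_comm]
      exact (Finset.sum_inter_add_sum_sdiff R F h).symm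
    rw [e1, e2, add_sub_cancel_left]
    refine (Finset.abs_sum_le_sum_abs _ _).trans ?_
    exact Finset.sum_le_sum_of_subset_of_nonneg Finset.sdiff_subset fun _ _ _ => abs_nonneg _
  · have e1 : F' ∩ R = ∅ := by
      apply Finset.eq_empty_of_forall_notMem
      intro x hx
      rw [Finset.mem_inter] at hx
      exact h2 x hx.2 hx.1
    rw [e1, Finset.sum_empty, zero_sub, abs_neg]
    refine (Finset.abs_sum_le_sum_abs _ _).trans ?_
    exact Finset.sum_le_sum_of_subset_of_nonneg Finset.inter_subset_right fun _ _ _ => abs_nonneg _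

end Cut

end GB
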