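import Pool.Agent.Helper26.GB.CutBase

/-!
# MP_02f2ca_gt, module A1 : the cut condition
-/

namespace GB

namespace Cut

open Classical

variable {G : Type*} [AddCommGroup G] (ι : ℤ × ℤ →+ G)

/-- The hypotheses on one level. -/
structure Clus (Z Gs : Set G) (H S : ℕ) (f : G → ℤ) : Prop where
  hGs : ∀ x ∈ Gs, ∃ z ∈ Z, ∃ u : ℤ × ℤ,
      |u.1| ≤ H ∧ |u.1 - 1| ≤ H ∧ |u.2| ≤ H ∧ x = z + ι u
  hsep : ∀ z ∈ Z, ∀ u : ℤ × ℤ, u ≠ 0 → InSq (2 * S) u → z + ι u ∉ Z
  hHS : H + 1 ≤ S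
  hf : ∀ x, f x = Gs.indicator (fun _ => (1 : ℤ)) x
      - Gs.indicator (fun _ => (1 : ℤ)) (x + ι (1, 0))

variable {ι} {Z Gs : Set G} {H S : ℕ} {f : G → ℤ}

theorem Clus.unique (c : Clus ι Z Gs H S f) {z z' : G} (hz : z ∈ Z) (hz' : z' ∈ Z)
    {a b : ℕ} {u u' : ℤ × ℤ} (hu : InSq a u) (hu' : InSq b u') (hab : a + b ≤ 2 * S)
    (h : z + ι u = z' + ι u') : z = z' ∧ u = u' := by
  by_cases huu : u - u' = 0
  · have : u = u' := sub_eq_zero.1 huu
    subst this
    exact ⟨add_right_cancel h, rfl⟩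
  · exfalso
    refine c.hsep z hz (u - u') huu (InSq.sub hab hu hu') ?_
    have : z' = z + ι (u - u') := by
      rw [map_sub, ← add_sub_assoc, h, add_sub_cancel_right]
    rwa [← this]

theorem Clus.uniqueQ (c : Clus ι Z Gs H S f) {z z' : G} (hz : z ∈ Z) (hz' : z' ∈ Z)
    {a b : ℕ} {x : G} (hx : x ∈ Q ι z a) (hx' : x ∈ Q ι z' b) (hab : a + b ≤ 2 * S) :
    z = z' := by
  obtain ⟨u, hu, hxu⟩ := (mem_Q ..).1 hx
  obtain ⟨v, hv, hxv⟩ := (mem_Q ..).1 hx'
  exact (c.unique hz hz' hu hv hab (hxu.symm.trans hxv)).1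

theorem Clus.supp (c : Clus ι Z Gs H S f) {x : G} (hx : f x ≠ 0) :
    ∃ z ∈ Z, x ∈ Q ι z H := by
  by_cases h1 : x ∈ Gs
  · obtain ⟨z, hz, u, h1, h2, h3, h4⟩ := c.hGs x h1
    exact ⟨z, hz, (mem_Q ..).2 ⟨u, ⟨h1, h3⟩, h4⟩⟩
  · by_cases h2 : x + ι (1, 0) ∈ Gs
    · obtain ⟨z, hz, u, h1, h2, h3, h4⟩ := c.hGs _ h2
      refine ⟨z, hz, (mem_Q ..).2 ⟨u - (1, 0), ⟨by simpa using h2, by simpa using h3⟩, ?_⟩⟩
      rw [map_sub, ← add_sub_assoc, ← h4, add_sub_cancel_right]
    · exfalso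
      apply hx
      rw [c.hf, Set.indicator_of_notMem h1, Set.indicator_of_notMem h2, sub_zero]

theorem Clus.abs_le_one (c : Clus ι Z Gs H S f) (x : G) : |f x| ≤ 1 := by
  rw [c.hf]
  by_cases h1 : x ∈ Gs <;> by_cases h2 : x + ι (1, 0) ∈ Gs <;> simp [h1, h2]

theorem Clus.mem_iff (c : Clus ι Z Gs H S f) {z : G} (hz : z ∈ Z) {x : G}
    (hx : x + ι (1, 0) ∈ Gs) : x + ι (1, 0) ∈ Q ι z H ↔ x ∈ Q ι z H := by
  obtain ⟨z', hz', u', h1, h2, h3, h4⟩ := c.hGs _ hx
  have hHS := c.hHS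
  constructor
  · intro h
    obtain ⟨v, hv, hv'⟩ := (mem_Q ..).1 h
    obtain ⟨hzz, huv⟩ := c.unique (b := H) hz hz' hv ⟨h1, h3⟩ (by omega) (hv'.symm.trans h4)
    subst huv
    rw [mem_Q]
    refine ⟨v - (1, 0), ⟨by simpa using h2, by simpa using h3⟩, ?_⟩
    rw [map_sub, ← add_sub_assoc, ← hv', add_sub_cancel_right]
  · intro h
    obtain ⟨v, hv, hv'⟩ := (mem_Q ..).1 h
    have hv1 : InSq (H + 1) (v + (1, 0)) := by
      obtain ⟨a1, a2⟩ := hv
      rw [abs_le] at a1 a2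
      simp only [InSq, Prod.fst_add, Prod.snd_add, abs_le]
      push_cast
      omega
    have e : z + ι (v + (1, 0)) = z' + ι u' := by
      rw [map_add, ← add_assoc, ← hv', h4]
    obtain ⟨hzz, huv⟩ := c.unique (b := H) hz hz' hv1 ⟨h1, h3⟩ (by omega) e
    rw [mem_Q, hzz]
    exact ⟨u', ⟨h1, h3⟩, h4⟩

theorem e1_mem : ((1, 0) : ℤ × ℤ) ∈ dirs := by simp [dirs]

theorem Clus.fz_le (c : Clus ι Z Gs H S f) {z : G} (hz : z ∈ Z) (F : Finset G) :
    |∑ x ∈ F ∩ Q ι z H, f x| ≤ ((inner ι z H F).card : ℤ) := by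
  set A := (F ∩ Q ι z H).filter (fun x => x ∈ Gs) with hA
  set B := (F ∩ Q ι z H).filter (fun x => x + ι (1, 0) ∈ Gs) with hB
  have hsum : ∑ x ∈ F ∩ Q ι z H, f x = (A.card : ℤ) - B.card := by
    have : ∀ x ∈ F ∩ Q ι z H, f x = (if x ∈ Gs then 1 else 0) -
        (if x + ι (1, 0) ∈ Gs then 1 else 0) := by
      intro x _
      rw [c.hf, Set.indicator_apply, Set.indicator_apply]
    rw [Finset.sum_congr rfl this, Finset.sum_sub_distrib, Finset.sum_boole, Finset.sum_boole]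
  have h1 : A.card ≤ B.card + (inner ι z H F).card := by
    rw [← Finset.card_filter_add_card_filter_not (s := A) (fun x => x - ι (1, 0) ∈ F)]
    apply Nat.add_le_add
    · apply Finset.card_le_card_of_injOn (fun x => x - ι (1, 0))
      · intro x hx
        simp only [hA, hB, Finset.coe_filter, Set.mem_ofPred_eq, Finset.mem_filter,
          Finset.mem_inter, sub_add_cancel] at hx ⊢
        refine ⟨⟨hx.2, ?_⟩, hx.1.2⟩
        rw [← c.mem_iff hz (by rw [sub_add_cancel]; exact hx.1.2), sub_add_cancel]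
        exact hx.1.1.2
      · intro x _ y _ hxy
        exact sub_left_injective hxy
    · apply Finset.card_le_card_of_injOn (fun x => (-(1, 0), x))
      · intro x hx
        simp only [hA, inner, mem_edges, Finset.coe_filter, Set.mem_ofPred_eq, Finset.mem_filter,
          Finset.mem_inter] at hx ⊢
        rw [map_neg, ← sub_eq_add_neg]
        refine ⟨⟨neg_mem_dirs e1_mem, hx.1.1.1, hx.2⟩, hx.1.1.2, ?_⟩
        rw [← c.mem_iff hz (by rw [sub_add_cancel]; exact hx.1.2), sub_add_cancel]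
        exact hx.1.1.2
      · intro x _ y _ hxy
        exact (Prod.mk.inj hxy).2
  have h2 : B.card ≤ A.card + (inner ι z H F).card := by
    rw [← Finset.card_filter_add_card_filter_not (s := B) (fun x => x + ι (1, 0) ∈ F)]
    apply Nat.add_le_add
    · apply Finset.card_le_card_of_injOn (fun x => x + ι (1, 0))
      · intro x hx
        simp only [hA, hB, Finset.coe_filter, Set.mem_ofPred_eq, Finset.mem_filter,
          Finset.mem_inter] at hx ⊢
        refine ⟨⟨hx.2, ?_⟩, hx.1.2⟩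
        rw [c.mem_iff hz hx.1.2]
        exact hx.1.1.2
      · intro x _ y _ hxy
        exact add_left_injective _ hxy
    · apply Finset.card_le_card_of_injOn (fun x => ((1, 0), x))
      · intro x hx
        simp only [hB, inner, mem_edges, Finset.coe_filter, Set.mem_ofPred_eq, Finset.mem_filter,
          Finset.mem_inter] at hx ⊢
        refine ⟨⟨e1_mem, hx.1.1.1, hx.2⟩, hx.1.1.2, ?_⟩
        rw [c.mem_iff hz hx.1.2]
        exact hx.1.1.2
      · intro x _ y _ hxy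
        exact (Prod.mk.inj hxy).2
  rw [hsum, abs_le]
  omega

theorem Clus.full_zero (c : Clus ι Z Gs H S f) {z : G} (hz : z ∈ Z) :
    ∑ x ∈ Q ι z H, f x = 0 := by
  have := c.fz_le hz (Q ι z H)
  rw [Finset.inter_self, inner_self, Finset.card_empty] at this
  have h0 := abs_nonneg (∑ x ∈ Q ι z H, f x)
  exact abs_eq_zero.1 (le_antisymm (by simpa using this) h0)

theorem Clus.sum_Q_eq (c : Clus ι Z Gs H S f) {z : G} (hz : z ∈ Z) {t : ℕ} (hHt : H ≤ t)
    (htS : t ≤ S) (F : Finset G) :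
    ∑ x ∈ F ∩ Q ι z t, f x = ∑ x ∈ F ∩ Q ι z H, f x := by
  symm
  apply Finset.sum_subset
  · exact Finset.inter_subset_inter_left (Q_mono ι z hHt)
  · intro x hx hx'
    by_contra hne
    obtain ⟨z', hz', hxz'⟩ := c.supp hne
    rw [Finset.mem_inter] at hx hx'
    have := c.uniqueQ hz hz' hx.2 hxz' (by have := c.hHS; omega)
    subst this
    exact hx' ⟨hx.1, hxz'⟩

theorem Clus.caseB (c : Clus ι Z Gs H S f) (F : Finset G) (M : ℕ)
    (hM : ∀ z ∈ Z, ∑ x ∈ F ∩ Q ι z H, f x ≠ 0 → M * (2 * H + 1) ^ 2 ≤ (inner ι z S F).card) :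
    (M : ℤ) * |∑ x ∈ F, f x| ≤ ((edges ι F).card : ℤ) := by
  have hHS := c.hHS
  have hex : ∀ x ∈ F.filter (fun x => f x ≠ 0), ∃ z ∈ Z, x ∈ Q ι z H := by
    intro x hx
    rw [Finset.mem_filter] at hx
    exact c.supp hx.2
  choose! cen hcZ hcQ using hex
  set F0 := F.filter (fun x => f x ≠ 0) with hF0
  have e1 : ∑ x ∈ F, f x = ∑ x ∈ F0, f x := by
    rw [hF0, Finset.sum_filter_ne_zero]
  have e2 : ∑ x ∈ F0, f x = ∑ z ∈ F0.image cen, ∑ x ∈ F0 with cen x = z, f x := by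
    exact (Finset.sum_fiberwise_of_maps_to (fun x hx => Finset.mem_image_of_mem _ hx) _).symm
  have e3 : ∀ z ∈ F0.image cen, z ∈ Z := by
    intro z hz
    rw [Finset.mem_image] at hz
    obtain ⟨x, hx, rfl⟩ := hz
    exact hcZ x hx
  have e4 : ∀ z ∈ F0.image cen, (M : ℤ) * |∑ x ∈ F0 with cen x = z, f x| ≤
      ((inner ι z S F).card : ℤ) := by
    intro z hz
    have hzZ := e3 z hz
    have : ∑ x ∈ F0 with cen x = z, f x = ∑ x ∈ F ∩ Q ι z H, f x := by
      apply Finset.sum_subset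
      · intro x hx
        rw [Finset.mem_filter] at hx
        have h1 := hcQ x hx.1
        rw [hx.2] at h1
        rw [hF0, Finset.mem_filter] at hx
        exact Finset.mem_inter.2 ⟨hx.1.1, h1⟩
      · intro x hx hx'
        by_contra hne
        rw [Finset.mem_inter] at hx
        have hx0 : x ∈ F0 := by
          rw [hF0, Finset.mem_filter]
          exact ⟨hx.1, hne⟩
        apply hx'
        rw [Finset.mem_filter]
        exact ⟨hx0, (c.uniqueQ hzZ (hcZ x hx0) hx.2 (hcQ x hx0) (by omega)).symm⟩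
    rw [this]
    by_cases h0 : ∑ x ∈ F ∩ Q ι z H, f x = 0
    · rw [h0]
      simp
    · have h1 := hM z hzZ h0
      have h2 : |∑ x ∈ F ∩ Q ι z H, f x| ≤ ((2 * H + 1) ^ 2 : ℕ) := by
        calc |∑ x ∈ F ∩ Q ι z H, f x| ≤ ∑ x ∈ F ∩ Q ι z H, |f x| :=
              Finset.abs_sum_le_sum_abs _ _
          _ ≤ ∑ x ∈ F ∩ Q ι z H, (1 : ℤ) := Finset.sum_le_sum fun x _ => c.abs_le_one x
          _ = ((F ∩ Q ι z H).card : ℤ) := by simp
          _ ≤ ((Q ι z H).card : ℤ) := by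
              exact_mod_cast Finset.card_le_card Finset.inter_subset_right
          _ ≤ ((2 * H + 1) ^ 2 : ℕ) := by exact_mod_cast card_Q ι z H
      calc (M : ℤ) * |∑ x ∈ F ∩ Q ι z H, f x| ≤ (M : ℤ) * ((2 * H + 1) ^ 2 : ℕ) :=
            mul_le_mul_of_nonneg_left h2 (by positivity)
        _ ≤ _ := by exact_mod_cast h1
  have e5 : (F0.image cen).sum (fun z => (inner ι z S F).card) ≤ (edges ι F).card := by
    rw [← Finset.card_biUnion]
    · apply Finset.card_le_card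
      intro p hp
      rw [Finset.mem_biUnion] at hp
      obtain ⟨z, _, hp⟩ := hp
      exact (Finset.mem_filter.1 hp).1
    · intro z hz z' hz' hne
      rw [Function.onFun, Finset.disjoint_left]
      intro p hp hp'
      apply hne
      exact c.uniqueQ (e3 z hz) (e3 z' hz') (Finset.mem_filter.1 hp).2.1
        (Finset.mem_filter.1 hp').2.1 (by omega)
  calc (M : ℤ) * |∑ x ∈ F, f x|
      = (M : ℤ) * |∑ z ∈ F0.image cen, ∑ x ∈ F0 with cen x = z, f x| := by rw [e1, e2]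
    _ ≤ (M : ℤ) * ∑ z ∈ F0.image cen, |∑ x ∈ F0 with cen x = z, f x| :=
        mul_le_mul_of_nonneg_left (Finset.abs_sum_le_sum_abs _ _) (by positivity)
    _ = ∑ z ∈ F0.image cen, (M : ℤ) * |∑ x ∈ F0 with cen x = z, f x| := by
        rw [Finset.mul_sum]
    _ ≤ ∑ z ∈ F0.image cen, ((inner ι z S F).card : ℤ) := Finset.sum_le_sum e4
    _ ≤ ((edges ι F).card : ℤ) := by exact_mod_cast e5

/-- Surgery: fill or empty a square whose boundary ring is full or empty. -/
theorem exists_surgery (hι : Function.Injective ι) (c : Clus ι Z Gs H S f) {z : G} (hz : z ∈ Z)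
    (F : Finset G) (M : ℕ) (hS : H + M + 1 ≤ S) (hM : (inner ι z S F).card < M) :
    ∃ F' : Finset G,
      (edges ι F').card + |∑ x ∈ F ∩ Q ι z H, f x| ≤ ((edges ι F).card : ℤ) ∧
      |∑ x ∈ F, f x| ≤ |∑ x ∈ F', f x| + |∑ x ∈ F ∩ Q ι z H, f x| ∧
      ∀ h : G → ℤ, |∑ x ∈ F, h x| ≤ |∑ x ∈ F', h x| + ∑ x ∈ Q ι z S, |h x| := by
  obtain ⟨t, hHt, htS, ht⟩ := exists_ring ι hι z F H S M hS hM
  obtain ⟨F', h1, h2, h3⟩ : ∃ F' : Finset G, (∀ x, x ∉ Q ι z t → (x ∈ F' ↔ x ∈ F)) ∧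
      ((∀ x ∈ Q ι z t, x ∈ F') ∨ (∀ x ∈ Q ι z t, x ∉ F')) ∧
      (∀ u, OnRing t u → (z + ι u ∈ F' ↔ z + ι u ∈ F)) := by
    have hQ : ∀ u, OnRing t u → z + ι u ∈ Q ι z t := fun u hu => (mem_Q ..).2 ⟨u, hu.1, rfl⟩
    rcases ht with ht | ht
    · refine ⟨F ∪ Q ι z t, ?_, Or.inl ?_, ?_⟩
      · intro x hx
        simp [hx]
      · intro x hx
        simp [hx]
      · intro u hu
        simp [ht u hu]
    · refine ⟨F \ Q ι z t, ?_, Or.inr ?_, ?_⟩
      · intro x hx
        simp [hx]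
      · intro x hx
        simp [hx]
      · intro u hu
        simp [ht u hu]
  refine ⟨F', ?_, ?_, ?_⟩
  · have a1 := Finset.card_le_card (edges_modify ι z t F F' h1 h2 h3)
    have a0 : inner ι z t F ⊆ edges ι F := Finset.filter_subset _ _
    rw [Finset.card_sdiff_of_subset a0] at a1
    have a2 : (inner ι z t F).card ≤ (edges ι F).card := Finset.card_le_card a0
    have a3 := c.fz_le hz F
    have a4 := Finset.card_le_card (inner_mono ι z hHt.le F)
    have a5 : (edges ι F').card + (inner ι z t F).card ≤ (edges ι F).card := by omega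
    have a6 : ((edges ι F').card : ℤ) + (inner ι z t F).card ≤ (edges ι F).card := by
      exact_mod_cast a5
    have a7 : ((inner ι z H F).card : ℤ) ≤ (inner ι z t F).card := by exact_mod_cast a4
    linarith
  · have a1 := sum_modify f (Q ι z t) F F' h1
    have a2 : ∑ x ∈ F' ∩ Q ι z t, f x = 0 := by
      rcases h2 with h2 | h2
      · rw [Finset.inter_eq_right.2 h2]
        have := c.sum_Q_eq hz hHt.le htS (Q ι z t)
        rw [Finset.inter_self, Finset.inter_eq_right.2 (Q_mono ι z hHt.le), c.full_zero hz] at this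
        exact this
      · have : F' ∩ Q ι z t = ∅ := by
          apply Finset.eq_empty_of_forall_notMem
          intro x hx
          rw [Finset.mem_inter] at hx
          exact h2 x hx.2 hx.1
        rw [this, Finset.sum_empty]
    rw [a2, c.sum_Q_eq hz hHt.le htS F] at a1
    have : ∑ x ∈ F, f x = ∑ x ∈ F', f x + ∑ x ∈ F ∩ Q ι z H, f x := by linarith
    rw [this]
    exact abs_add_le _ _
  · intro h
    have a1 := abs_sum_modify h (Q ι z t) F F' h1 h2
    have a2 : ∑ x ∈ Q ι z t, |h x| ≤ ∑ x ∈ Q ι z S, |h x| :=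
      Finset.sum_le_sum_of_subset_of_nonneg (Q_mono ι z htS) fun _ _ _ => abs_nonneg _
    have a3 : |∑ x ∈ F, h x| ≤ |∑ x ∈ F', h x| + |∑ x ∈ F', h x - ∑ x ∈ F, h x| := by
      have e : ∑ x ∈ F, h x = ∑ x ∈ F', h x - (∑ x ∈ F', h x - ∑ x ∈ F, h x) := by ring
      calc |∑ x ∈ F, h x| = |∑ x ∈ F', h x - (∑ x ∈ F', h x - ∑ x ∈ F, h x)| := by rw [← e]
        _ ≤ _ := abs_sub _ _
    linarith

end Cut

open Cut in
theorem cut_condition {G : Type*} [AddCommGroup G] (ι : ℤ × ℤ →+ G) (hι : Function.Injective ι)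
    (n : ℕ) (Z Gs : ℕ → Set G) (H S : ℕ → ℕ)
    (hGs : ∀ i < n, ∀ x ∈ Gs i, ∃ z ∈ Z i, ∃ u : ℤ × ℤ,
      |u.1| ≤ H i ∧ |u.1 - 1| ≤ H i ∧ |u.2| ≤ H i ∧ x = z + ι u)
    (hsep : ∀ i < n, ∀ z ∈ Z i, ∀ u : ℤ × ℤ, u ≠ 0 → InSq (2 * S i) u → z + ι u ∉ Z i)
    (hsize : ∀ i < n, H i + 2 ^ (i + 1) * (2 * H i + 1) ^ 2 + 1 ≤ S i)
    (f : ℕ → G → ℤ)
    (hf : ∀ i < n, ∀ x, f i x = (Gs i).indicator (fun _ => (1 : ℤ)) x
      - (Gs i).indicator (fun _ => (1 : ℤ)) (x + ι (1, 0)))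
    (hhigh : ∀ i < n, ∀ j < n, ∀ j' < n, i < j → i < j' → ∀ x, ∀ u : ℤ × ℤ,
      InSq (2 * S i) u → f j x ≠ 0 → f j' (x + ι u) ≠ 0 → u = 0 ∧ j = j')
    (F : Finset G) :
    |∑ g ∈ F, ∑ i ∈ Finset.range n, f i g| ≤ 3 * (bdry ι F : ℤ) := by
  classical
  have hc : ∀ i < n, Clus ι (Z i) (Gs i) (H i) (S i) (f i) := fun i hi =>
    ⟨hGs i hi, hsep i hi, by have := hsize i hi; omega, hf i hi⟩
  -- at most one higher-level value on each big square
  have hone : ∀ i < n, ∀ z, ∑ j ∈ Finset.Ico (i + 1) n, ∑ x ∈ Q ι z (S i), |f j x| ≤ 1 := by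
    intro i hi z
    rw [← Finset.sum_product']
    by_cases h0 : ∀ p ∈ Finset.Ico (i + 1) n ×ˢ Q ι z (S i), |f p.1 p.2| = 0
    · rw [Finset.sum_eq_zero h0]
      norm_num
    · push Not at h0
      obtain ⟨p, hp, hp0⟩ := h0
      rw [Finset.sum_eq_single_of_mem p hp]
      · rw [Finset.mem_product, Finset.mem_Ico] at hp
        exact (hc p.1 hp.1.2).abs_le_one p.2
      · intro q hq hqp
        by_contra hq0
        apply hqp
        rw [Finset.mem_product, Finset.mem_Ico] at hp hq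
        obtain ⟨u, hu, hpu⟩ := (mem_Q ..).1 hp.2
        obtain ⟨v, hv, hqv⟩ := (mem_Q ..).1 hq.2
        have e : q.2 = p.2 + ι (v - u) := by
          rw [hpu, hqv, map_sub]
          abel
        have hvu : InSq (2 * S i) (v - u) := InSq.sub (by omega) hv hu
        have := hhigh i hi p.1 hp.1.2 q.1 hq.1.2 (by omega) (by omega) p.2 (v - u) hvu
          (abs_ne_zero.1 hp0) (by rw [← e]; exact abs_ne_zero.1 hq0)
        ext
        · exact this.2.symm
        · rw [e, this.1, map_zero, add_zero]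
  -- main claim
  have main : ∀ k i : ℕ, i + k = n → ∀ (b : ℕ) (F : Finset G), (edges ι F).card = b →
      ((∑ j ∈ Finset.Ico i n, |∑ x ∈ F, f j x| : ℤ) : ℝ) ≤
        (2 + (1 / 2 : ℝ) ^ i) * (b : ℝ) := by
    intro k
    induction k with
    | zero =>
      intro i hi b F _
      have : i = n := by omega
      subst this
      rw [Finset.Ico_self, Finset.sum_empty, Int.cast_zero]
      positivity
    | succ k ihk =>
      intro i hik b
      have hi : i < n := by omega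
      have hCi : (0 : ℝ) ≤ (1 / 2 : ℝ) ^ i := by positivity
      induction b using Nat.strong_induction_on with
      | _ b ihb =>
        intro F hF
        by_cases hA : ∃ z ∈ Z i, ∑ x ∈ F ∩ Q ι z (H i), f i x ≠ 0 ∧
            (inner ι z (S i) F).card < 2 ^ (i + 1) * (2 * H i + 1) ^ 2
        · obtain ⟨z, hz, hm, hlt⟩ := hA
          obtain ⟨F', hF1, hF2, hF3⟩ := exists_surgery hι (hc i hi) hz F _ (hsize i hi) hlt
          set m : ℤ := |∑ x ∈ F ∩ Q ι z (H i), f i x| with hmdef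
          have hm1 : 1 ≤ m := Int.one_le_abs hm
          have hlt' : (edges ι F').card < b := by
            rw [hF] at hF1
            omega
          have ih := ihb _ hlt' F' rfl
          have hsum : ∑ j ∈ Finset.Ico i n, |∑ x ∈ F, f j x| ≤
              ∑ j ∈ Finset.Ico i n, |∑ x ∈ F', f j x| + m + 1 := by
            rw [Finset.sum_eq_sum_Ico_succ_bot hi, Finset.sum_eq_sum_Ico_succ_bot hi]
            have h1 : ∑ j ∈ Finset.Ico (i + 1) n, |∑ x ∈ F, f j x| ≤
                ∑ j ∈ Finset.Ico (i + 1) n, |∑ x ∈ F', f j x| +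
                  ∑ j ∈ Finset.Ico (i + 1) n, ∑ x ∈ Q ι z (S i), |f j x| := by
              rw [← Finset.sum_add_distrib]
              exact Finset.sum_le_sum fun j _ => hF3 (f j)
            have h2 := hone i hi z
            linarith
          have hsum' : ((∑ j ∈ Finset.Ico i n, |∑ x ∈ F, f j x| : ℤ) : ℝ) ≤
              ((∑ j ∈ Finset.Ico i n, |∑ x ∈ F', f j x| : ℤ) : ℝ) + m + 1 := by
            exact_mod_cast hsum
          have hF1' : ((edges ι F').card : ℝ) + m ≤ b := by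
            rw [hF] at hF1
            exact_mod_cast hF1
          have hm1' : (1 : ℝ) ≤ m := by exact_mod_cast hm1
          nlinarith [mul_nonneg hCi (sub_nonneg.2 hF1'), mul_nonneg hCi (sub_nonneg.2 hm1')]
        · push Not at hA
          have hB := (hc i hi).caseB F (2 ^ (i + 1)) hA
          have ih := ihk (i + 1) (by omega) b F hF
          rw [Finset.sum_eq_sum_Ico_succ_bot hi]
          rw [hF] at hB
          have hB' : (2 : ℝ) ^ (i + 1) * ((|∑ x ∈ F, f i x| : ℤ) : ℝ) ≤ b := by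
            exact_mod_cast hB
          have hB'' : ((|∑ x ∈ F, f i x| : ℤ) : ℝ) ≤ (1 / 2 : ℝ) ^ (i + 1) * b := by
            rw [one_div, inv_pow, inv_mul_eq_div, le_div_iff₀ (by positivity), mul_comm]
            exact hB'
          rw [Int.cast_add]
          have e : (1 / 2 : ℝ) ^ i = 2 * (1 / 2 : ℝ) ^ (i + 1) := by
            rw [pow_succ]; ring
          rw [e]
          linarith
  have h0 := main n 0 (by omega) _ F rfl
  rw [card_edges, pow_zero, ← Finset.range_eq_Ico] at h0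
  have h1 : ∑ j ∈ Finset.range n, |∑ x ∈ F, f j x| ≤ 3 * (bdry ι F : ℤ) := by
    have : ((∑ j ∈ Finset.range n, |∑ x ∈ F, f j x| : ℤ) : ℝ) ≤ ((3 * (bdry ι F : ℤ) : ℤ) : ℝ) := by
      push_cast at h0 ⊢
      linarith
    exact_mod_cast this
  rw [Finset.sum_comm]
  exact (Finset.abs_sum_le_sum_abs _ _).trans h1

end GB
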