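import Pool.Agent.Helper5.GB.St

/-!
# MP_b39980_an, project GB, module Cyc

No periodic orbits of small period near the conservative points.
-/

set_option autoImplicit false

open Set Filter Topology
open Helper85.HN (hen Orb Bd KK E0)
open Pool.Agent.Helper5.GB

noncomputable section

namespace Pool.Agent.Helper26.GB

/-- Sums over a period do not depend on the starting point. -/
theorem sum_shift (f : ℤ → ℝ) (m : ℕ) (hp : ∀ n, f (n + m) = f n) (i : ℤ) :
    ∑ j ∈ Finset.range m, f (i + j) = ∑ j ∈ Finset.range m, f j := by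
  have step : ∀ i : ℤ, ∑ j ∈ Finset.range m, f (i + 1 + j) = ∑ j ∈ Finset.range m, f (i + j) := by
    intro i
    have h1 := Finset.sum_range_succ (fun j : ℕ => f (i + j)) m
    have h2 := Finset.sum_range_succ' (fun j : ℕ => f (i + j)) m
    have h3 : ∀ j : ℕ, f (i + ((j + 1 : ℕ) : ℤ)) = f (i + 1 + j) := by
      intro j
      congr 1
      push_cast
      ring
    simp only [h3] at h2
    have h4 : f (i + (m : ℤ)) = f i := hp i
    have h5 : f (i + ((0 : ℕ) : ℤ)) = f i := by simp
    rw [h5] at h2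
    rw [h4] at h1
    linarith
  induction i using Int.induction_on with
  | zero => simp
  | succ i ih => rw [step]; exact ih
  | pred i ih =>
    have := step (-(i : ℤ) - 1)
    rw [show -(i : ℤ) - 1 + 1 = -(i : ℤ) by ring] at this
    rw [← this]
    exact ih

/-- Small steps. -/
theorem abs_sub_le_mul (f : ℤ → ℝ) (d : ℝ) (hd : ∀ n, |f (n + 1) - f n| ≤ d) (n : ℤ) (j : ℕ) :
    |f (n + j) - f n| ≤ j * d := by
  induction j with
  | zero => simp
  | succ j ih =>
    have h1 := hd (n + j)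
    have h2 : f (n + ((j + 1 : ℕ) : ℤ)) - f n = (f (n + j + 1) - f (n + j)) + (f (n + j) - f n) := by
      rw [show n + ((j + 1 : ℕ) : ℤ) = n + j + 1 by push_cast; ring]
      ring
    rw [h2]
    calc |f (n + j + 1) - f (n + j) + (f (n + j) - f n)|
        ≤ |f (n + j + 1) - f (n + j)| + |f (n + j) - f n| := abs_add_le _ _
      _ ≤ d + j * d := add_le_add h1 ih
      _ = ((j + 1 : ℕ) : ℝ) * d := by push_cast; ring

/-- A periodic sequence of mean zero with small steps is small. -/
theorem small_of_steps (f : ℤ → ℝ) (m : ℕ) (hm : 1 ≤ m) (hp : ∀ n, f (n + m) = f n) (d : ℝ)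
    (hd : ∀ n, |f (n + 1) - f n| ≤ d) (hs : ∑ j ∈ Finset.range m, f j = 0) (n : ℤ) :
    |f n| ≤ m * d := by
  have hd0 : 0 ≤ d := le_trans (abs_nonneg _) (hd 0)
  have hs' : ∑ j ∈ Finset.range m, f (n + j) = 0 := by rw [sum_shift f m hp n, hs]
  have hne : (Finset.range m).Nonempty := Finset.nonempty_range_iff.mpr (by omega)
  have hbd : ∀ j ∈ Finset.range m, |f (n + j) - f n| ≤ m * d := by
    intro j hj
    refine le_trans (abs_sub_le_mul f d hd n j) ?_
    have : (j : ℝ) ≤ m := by exact_mod_cast (Finset.mem_range.mp hj).le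
    exact mul_le_mul_of_nonneg_right this hd0
  rw [abs_le]
  constructor
  · by_contra hlt
    push Not at hlt
    have : ∑ j ∈ Finset.range m, f (n + j) < ∑ j ∈ Finset.range m, (0 : ℝ) := by
      apply Finset.sum_lt_sum_of_nonempty hne
      intro j hj
      have := (abs_le.mp (hbd j hj)).2
      linarith
    rw [hs'] at this
    simp at this
  · by_contra hlt
    push Not at hlt
    have : ∑ j ∈ Finset.range m, (0 : ℝ) < ∑ j ∈ Finset.range m, f (n + j) := by
      apply Finset.sum_lt_sum_of_nonempty hne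
      intro j hj
      have := (abs_le.mp (hbd j hj)).1
      linarith
    rw [hs'] at this
    simp at this

/-- A bounded sequence which is contracted is zero. -/
theorem zero_of_contr (f : ℤ → ℝ) (θ M0 : ℝ) (h0 : 0 ≤ θ) (h1 : θ < 1) (hM : ∀ n, |f n| ≤ M0)
    (hc : ∀ M, 0 ≤ M → (∀ n, |f n| ≤ M) → ∀ n, |f n| ≤ θ * M) (n : ℤ) : f n = 0 := by
  have hM0 : 0 ≤ M0 := le_trans (abs_nonneg _) (hM 0)
  have hk : ∀ k : ℕ, ∀ n, |f n| ≤ θ ^ k * M0 := by
    intro k
    induction k with
    | zero => intro n; simpa using hM n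
    | succ k ih =>
      intro n
      have := hc (θ ^ k * M0) (mul_nonneg (pow_nonneg h0 k) hM0) ih n
      rw [pow_succ']
      linarith [this]
  have ht : Tendsto (fun k : ℕ => θ ^ k * M0) atTop (𝓝 (0 * M0)) :=
    (tendsto_pow_atTop_nhds_zero_of_lt_one h0 h1).mul_const M0
  have := ge_of_tendsto' ht (fun k => hk k n)
  have h2 : |f n| ≤ 0 := by simpa using this
  exact abs_eq_zero.mp (le_antisymm h2 (abs_nonneg _))

/-- One term is at most the sum of squares over a period. -/
theorem sq_le_sum (f : ℤ → ℝ) (m : ℕ) (hm : 1 ≤ m) (hp : ∀ n, f (n + m) = f n) (n : ℤ) :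
    f n ^ 2 ≤ ∑ j ∈ Finset.range m, f j ^ 2 := by
  have h1 : ∑ j ∈ Finset.range m, f (n + j) ^ 2 = ∑ j ∈ Finset.range m, f j ^ 2 :=
    sum_shift (fun i => f i ^ 2) m (fun i => by simp only [hp i]) n
  rw [← h1]
  have h2 := Finset.single_le_sum (f := fun j : ℕ => f (n + j) ^ 2) (s := Finset.range m)
    (fun j _ => sq_nonneg _) (Finset.mem_range.mpr (show 0 < m by omega))
  simpa using h2

/-- Sums over a period of a shifted periodic sequence. -/
theorem sum_shift' (f : ℤ → ℝ) (m : ℕ) (hp : ∀ n, f (n + m) = f n) (i : ℤ) :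
    ∑ j ∈ Finset.range m, f (j + i) = ∑ j ∈ Finset.range m, f j := by
  rw [← sum_shift f m hp i]
  apply Finset.sum_congr rfl
  intro j _
  rw [add_comm]

/-- Part one, centred form. -/
theorem core1 (A b e δ : ℝ) (u : ℤ → ℝ) (m : ℕ) (hm : 1 ≤ m) (hN : 1 ≤ A) (hmA : (m : ℝ) ≤ A) (hδ : δ = 1 / (128 * A ^ 5))
    (hup : ∀ n, u (n + m) = u n) (horb : ∀ n, u (n + 1) - u n = b * (u n - u (n - 1)) + u n ^ 2 - e)
    (hb : |b - 1| < δ) (hele : e ≤ 3 * δ) (n : ℤ) : u (n + 1) - u n = 0 := by
  have hApos : 0 < A := by linarith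
  have hm0 : (0 : ℝ) ≤ m := Nat.cast_nonneg m
  have hδpos : 0 < δ := by rw [hδ]; positivity
  have hδA : 128 * A ^ 5 * δ = 1 := by
    rw [hδ]; field_simp
  -- the sum of squares
  have hsum : ∑ j ∈ Finset.range m, u j ^ 2 = m * e := by
    have h1 : ∑ j ∈ Finset.range m, (u (j + 1) - u j) = ∑ j ∈ Finset.range m, (b * (u j - u (j - 1)) + u j ^ 2 - e) :=
      Finset.sum_congr rfl (fun j _ => horb j)
    rw [Finset.sum_sub_distrib, Finset.sum_sub_distrib, Finset.sum_add_distrib, ← Finset.mul_sum, Finset.sum_sub_distrib,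
      sum_shift' u m hup 1] at h1
    have h2 : ∑ j ∈ Finset.range m, u ((j : ℤ) - 1) = ∑ j ∈ Finset.range m, u j := by
      have := sum_shift' u m hup (-1)
      simpa [sub_eq_add_neg] using this
    rw [h2] at h1
    simp only [Finset.sum_const, Finset.card_range, nsmul_eq_mul, sub_self, mul_zero, zero_add] at h1
    linarith
  have hρ : ∀ n, |u n| ≤ 1 / (4 * A ^ 2) := by
    intro n
    have h1 := sq_le_sum u m hm hup n
    rw [hsum] at h1
    have h2 : (m : ℝ) * e ≤ (1 / (4 * A ^ 2)) ^ 2 := by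
      have h3 : (m : ℝ) * e ≤ A * (3 * δ) := by
        have h4 : (m : ℝ) * e ≤ m * (3 * δ) := mul_le_mul_of_nonneg_left hele hm0
        have h5 : (m : ℝ) * (3 * δ) ≤ A * (3 * δ) := mul_le_mul_of_nonneg_right hmA (by positivity)
        linarith
      have h6 : (1 / (4 * A ^ 2)) ^ 2 = 8 * A * δ := by
        rw [hδ]; field_simp; norm_num
      rw [h6]
      nlinarith [mul_pos hApos hδpos]
    exact abs_le_of_sq_le_sq (le_trans h1 h2) (by positivity)
  obtain ⟨Δ, hΔ⟩ : ∃ Δ : ℤ → ℝ, ∀ n, Δ n = u (n + 1) - u n := ⟨fun n => u (n + 1) - u n, fun n => rfl⟩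
  have hΔp : ∀ n, Δ (n + m) = Δ n := by
    intro n
    rw [hΔ, hΔ, hup n, show n + (m : ℤ) + 1 = n + 1 + m by ring, hup (n + 1)]
  have hΔs : ∑ j ∈ Finset.range m, Δ j = 0 := by
    simp only [hΔ]
    rw [Finset.sum_sub_distrib, sum_shift' u m hup 1, sub_self]
  have h44 : 1 / (2 * A ^ 2) = 1 / (4 * A ^ 2) + 1 / (4 * A ^ 2) := by field_simp; norm_num
  have key : Δ n = 0 := by
    apply zero_of_contr Δ (3 / 4) (1 / (2 * A ^ 2)) (by norm_num) (by norm_num)
    · intro n
      rw [hΔ, h44]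
      exact le_trans (abs_sub _ _) (add_le_add (hρ _) (hρ _))
    · intro M hM hb'
      obtain ⟨W, hW⟩ : ∃ W : ℤ → ℝ, ∀ n, W n = u n ^ 2 - e := ⟨fun n => u n ^ 2 - e, fun n => rfl⟩
      have hWp : ∀ n, W (n + m) = W n := fun n => by rw [hW, hW, hup n]
      have hWs : ∑ j ∈ Finset.range m, W j = 0 := by
        simp only [hW]
        rw [Finset.sum_sub_distrib, hsum]
        simp
      have hWd : ∀ n, |W (n + 1) - W n| ≤ 1 / (2 * A ^ 2) * M := by
        intro n
        have h1 : W (n + 1) - W n = (u (n + 1) + u n) * Δ n := by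
          rw [hW, hW, hΔ]; ring
        rw [h1, abs_mul]
        apply mul_le_mul _ (hb' n) (abs_nonneg _) (by positivity)
        rw [h44]
        exact le_trans (abs_add_le _ _) (add_le_add (hρ _) (hρ _))
      have hWb : ∀ n, |W n| ≤ m * (1 / (2 * A ^ 2) * M) := small_of_steps W m hm hWp _ hWd hWs
      have hΔd : ∀ n, |Δ (n + 1) - Δ n| ≤ m * (1 / (2 * A ^ 2) * M) + δ * M := by
        intro n
        have h1 : Δ (n + 1) - Δ n = W (n + 1) - (1 - b) * Δ n := by
          have h2 := horb (n + 1)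
          rw [show n + 1 - 1 = n by ring] at h2
          rw [hW, hΔ, hΔ]
          linarith
        rw [h1]
        have h3 : |(1 - b) * Δ n| ≤ δ * M := by
          rw [abs_mul]
          apply mul_le_mul _ (hb' n) (abs_nonneg _) hδpos.le
          rw [abs_sub_comm]; exact hb.le
        exact le_trans (abs_sub _ _) (add_le_add (hWb _) h3)
      intro n
      refine le_trans (small_of_steps Δ m hm hΔp _ hΔd hΔs n) ?_
      have h5 : (m : ℝ) * (m * (1 / (2 * A ^ 2) * M) + δ * M) ≤ A * (A * (1 / (2 * A ^ 2) * M) + δ * M) := by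
        apply mul_le_mul hmA _ (by positivity) hApos.le
        have : (m : ℝ) * (1 / (2 * A ^ 2) * M) ≤ A * (1 / (2 * A ^ 2) * M) :=
          mul_le_mul_of_nonneg_right hmA (by positivity)
        linarith
      refine le_trans h5 ?_
      have h6 : A * (A * (1 / (2 * A ^ 2) * M) + δ * M) = (1 / 2 + A * δ) * M := by field_simp
      rw [h6]
      have h7 : A * δ ≤ 1 / 128 := by
        have h8 : A * δ ≤ A ^ 5 * δ := by
          apply mul_le_mul_of_nonneg_right _ hδpos.le
          calc A = A ^ 1 := (pow_one A).symm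
            _ ≤ A ^ 5 := pow_le_pow_right₀ hN (by norm_num)
        linarith
      exact mul_le_mul_of_nonneg_right (by linarith) hM
  rw [← hΔ]
  exact key

/-- Part one. -/
theorem part1 (N : ℕ) (b c δ : ℝ) (x : ℤ → ℝ) (m : ℕ) (hm : 1 ≤ m) (hmN : m ≤ N) (hδ : δ = 1 / (128 * ((N : ℝ) + 1) ^ 5))
    (ho : Orb b c x) (hp : ∀ n, x (n + m) = x n) (hb : |b - 1| < δ) (hc : |c - 1| < δ) (n : ℤ) :
    x (n + 1) = x n := by
  have hN0 : (0 : ℝ) ≤ N := Nat.cast_nonneg N
  have hN : (1 : ℝ) ≤ (N : ℝ) + 1 := by linarith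
  have hmA : (m : ℝ) ≤ (N : ℝ) + 1 := by
    have : (m : ℝ) ≤ N := by exact_mod_cast hmN
    linarith
  have hA5 : 1 ≤ ((N : ℝ) + 1) ^ 5 := one_le_pow₀ hN
  have hδ1 : δ ≤ 1 := by
    rw [hδ, div_le_one (by positivity)]
    linarith
  obtain ⟨hb1, hb2⟩ := abs_lt.mp hb
  obtain ⟨hc1, hc2⟩ := abs_lt.mp hc
  have hele : (1 + b) ^ 2 / 4 - c ≤ 3 * δ := by
    have h1 : (1 + b) ^ 2 / 4 - c = (b - 1) + (b - 1) ^ 2 / 4 - (c - 1) := by ring
    have h2 : (b - 1) ^ 2 ≤ δ := by nlinarith
    linarith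
  have := core1 ((N : ℝ) + 1) b ((1 + b) ^ 2 / 4 - c) δ (fun n => x n - (1 + b) / 2) m hm hN hmA hδ
    (fun n => by simp only [hp n]) (fun n => by
      have := ho n
      simp only [this]
      ring) hb hele n
  linarith

/-- Part two. -/
theorem part2 (N : ℕ) (b c δ : ℝ) (x : ℤ → ℝ) (m : ℕ) (hm : 1 ≤ m) (hmN : m ≤ N) (hδ : δ = 1 / (128 * ((N : ℝ) + 1) ^ 5))
    (ho : Orb b c x) (hp : ∀ n, x (n + m) = x n) (hb : |b + 1| < δ) (hc : |c| < δ) (n : ℤ) :
    x (n + 2) = x n := by
  have hN : (1 : ℝ) ≤ (N : ℝ) + 1 := by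
    have : (0 : ℝ) ≤ N := Nat.cast_nonneg N
    linarith
  set A : ℝ := (N : ℝ) + 1 with hA
  have hApos : 0 < A := by linarith
  have hmA : (m : ℝ) ≤ A := by
    have : (m : ℝ) ≤ N := by exact_mod_cast hmN
    linarith
  have hm0 : (0 : ℝ) ≤ m := Nat.cast_nonneg m
  have hA5 : 1 ≤ A ^ 5 := one_le_pow₀ hN
  have hδpos : 0 < δ := by rw [hδ]; positivity
  have hδ1 : δ ≤ 1 := by
    rw [hδ, div_le_one (by positivity)]
    linarith
  have hδA : 128 * A ^ 5 * δ = 1 := by
    rw [hδ]; field_simp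
  -- the sum of squares
  set S : ℝ := ∑ j ∈ Finset.range m, x j ^ 2 with hS
  set X : ℝ := ∑ j ∈ Finset.range m, x j with hX
  have hS0 : 0 ≤ S := Finset.sum_nonneg (fun j _ => sq_nonneg _)
  have hsum : S = (1 + b) * X - m * c := by
    have h1 : ∑ j ∈ Finset.range m, x (j + 1) = ∑ j ∈ Finset.range m, (x j ^ 2 + c - b * x (j - 1)) :=
      Finset.sum_congr rfl (fun j _ => ho j)
    rw [Finset.sum_sub_distrib, Finset.sum_add_distrib, ← Finset.mul_sum, sum_shift' x m hp 1] at h1
    have h2 : ∑ j ∈ Finset.range m, x ((j : ℤ) - 1) = ∑ j ∈ Finset.range m, x j := by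
      have := sum_shift' x m hp (-1)
      simpa [sub_eq_add_neg] using this
    rw [h2] at h1
    simp only [Finset.sum_const, Finset.card_range, nsmul_eq_mul] at h1
    rw [hS]
    linarith
  have hXb : |X| ≤ (m + S) / 2 := by
    have h1 : |X| ≤ ∑ j ∈ Finset.range m, |x j| := Finset.abs_sum_le_sum_abs _ _
    have h2 : ∑ j ∈ Finset.range m, |x j| ≤ ∑ j ∈ Finset.range m, ((1 + x j ^ 2) / 2) := by
      apply Finset.sum_le_sum
      intro j _
      have h3 := sq_abs (x j)
      nlinarith [sq_nonneg (|x j| - 1)]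
    have h4 : ∑ j ∈ Finset.range m, ((1 + x j ^ 2) / 2) = (m + S) / 2 := by
      rw [← Finset.sum_div, Finset.sum_add_distrib]
      simp [hS]
    linarith
  have hSle : S ≤ m * (3 * δ) := by
    have h1 : (1 + b) * X ≤ δ * ((m + S) / 2) := by
      calc (1 + b) * X ≤ |(1 + b) * X| := le_abs_self _
        _ = |b + 1| * |X| := by rw [abs_mul, add_comm]
        _ ≤ δ * ((m + S) / 2) := mul_le_mul hb.le hXb (abs_nonneg _) hδpos.le
    have h2 : -(m * c) ≤ m * δ := by
      have h3 : -c ≤ δ := by linarith [(abs_lt.mp hc).1]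
      nlinarith
    have h4 : δ * S ≤ S := by nlinarith
    nlinarith
  have hρ : ∀ n, |x n| ≤ 1 / (4 * A ^ 2) := by
    intro n
    have h1 := sq_le_sum x m hm hp n
    rw [← hS] at h1
    have h2 : S ≤ (1 / (4 * A ^ 2)) ^ 2 := by
      have h3 : (m : ℝ) * (3 * δ) ≤ A * (3 * δ) := mul_le_mul_of_nonneg_right hmA (by positivity)
      have h6 : (1 / (4 * A ^ 2)) ^ 2 = 8 * A * δ := by
        rw [hδ]; field_simp; norm_num
      rw [h6]
      nlinarith [mul_pos hApos hδpos]
    exact abs_le_of_sq_le_sq (le_trans h1 h2) (by positivity)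
  set E : ℤ → ℝ := fun n => x (n + 1) - x (n - 1) with hE
  have hp2 : ∀ (n : ℤ) (k : ℕ), x (n + k * m) = x n := by
    intro n k
    induction k with
    | zero => simp
    | succ k ih =>
      rw [show n + ((k + 1 : ℕ) : ℤ) * m = n + k * m + m by push_cast; ring, hp, ih]
  have hp3 : ∀ n : ℤ, x (n + 2 * m) = x n := fun n => by
    have := hp2 n 2
    simpa using this
  have key : ∀ n, E n = 0 := by
    intro n
    apply zero_of_contr E (3 / 4) (1 / (2 * A ^ 2)) (by norm_num) (by norm_num)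
    · intro n
      have h4 : 1 / (2 * A ^ 2) = 1 / (4 * A ^ 2) + 1 / (4 * A ^ 2) := by field_simp; norm_num
      simp only [hE]
      rw [h4]
      exact le_trans (abs_sub _ _) (add_le_add (hρ _) (hρ _))
    · intro M hM hb' n
      set f : ℤ → ℝ := fun i => E (n + 2 * i) with hf
      have hfp : ∀ i, f (i + m) = f i := by
        intro i
        simp only [hf, hE]
        rw [show n + 2 * (i + (m : ℤ)) + 1 = (n + 2 * i + 1) + 2 * m by ring,
          show n + 2 * (i + (m : ℤ)) - 1 = (n + 2 * i - 1) + 2 * m by ring, hp3, hp3]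
      have hfs : ∑ j ∈ Finset.range m, f j = 0 := by
        have h1 := Finset.sum_range_sub (fun j : ℕ => x (n + 2 * j - 1)) m
        have h2 : ∑ j ∈ Finset.range m, f j = ∑ j ∈ Finset.range m, (x (n + 2 * ((j + 1 : ℕ) : ℤ) - 1) - x (n + 2 * j - 1)) := by
          apply Finset.sum_congr rfl
          intro j _
          simp only [hf, hE]
          rw [show n + 2 * ((j + 1 : ℕ) : ℤ) - 1 = n + 2 * j + 1 by push_cast; ring]
        rw [h2, h1]
        rw [show n + 2 * (m : ℤ) - 1 = n - 1 + 2 * m by ring, hp3]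
        simp
      have hfd : ∀ i, |f (i + 1) - f i| ≤ (1 / (2 * A ^ 2) + δ) * M := by
        intro i
        have h1 : ∀ k : ℤ, E (k + 2) - E k = (x (k + 2) + x k) * E (k + 1) - (b + 1) * E k := by
          intro k
          have ha := ho (k + 2)
          have hb3 := ho k
          rw [show k + 2 - 1 = k + 1 by ring] at ha
          simp only [hE]
          rw [ha, hb3, show k + 2 - 1 = k + 1 by ring, show k + 1 - 1 = k by ring, show k + 1 + 1 = k + 2 by ring, hb3]
          ring
        have h2 := h1 (n + 2 * i)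
        simp only [hf]
        rw [show n + 2 * (i + 1) = n + 2 * i + 2 by ring, h2]
        have h3 : |(x (n + 2 * i + 2) + x (n + 2 * i)) * E (n + 2 * i + 1)| ≤ 1 / (2 * A ^ 2) * M := by
          rw [abs_mul]
          apply mul_le_mul _ (hb' _) (abs_nonneg _) (by positivity)
          have h4 : 1 / (2 * A ^ 2) = 1 / (4 * A ^ 2) + 1 / (4 * A ^ 2) := by field_simp; norm_num
          rw [h4]
          exact le_trans (abs_add_le _ _) (add_le_add (hρ _) (hρ _))
        have h5 : |(b + 1) * E (n + 2 * i)| ≤ δ * M := by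
          rw [abs_mul]
          exact mul_le_mul hb.le (hb' _) (abs_nonneg _) hδpos.le
        calc |(x (n + 2 * i + 2) + x (n + 2 * i)) * E (n + 2 * i + 1) - (b + 1) * E (n + 2 * i)|
            ≤ |(x (n + 2 * i + 2) + x (n + 2 * i)) * E (n + 2 * i + 1)| + |(b + 1) * E (n + 2 * i)| := abs_sub _ _
          _ ≤ 1 / (2 * A ^ 2) * M + δ * M := add_le_add h3 h5
          _ = (1 / (2 * A ^ 2) + δ) * M := by ring
      have h6 := small_of_steps f m hm hfp _ hfd hfs 0
      have h7 : f 0 = E n := by simp [hf]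
      rw [h7] at h6
      refine le_trans h6 ?_
      have h8 : (m : ℝ) * ((1 / (2 * A ^ 2) + δ) * M) ≤ A * ((1 / (2 * A ^ 2) + δ) * M) :=
        mul_le_mul_of_nonneg_right hmA (by positivity)
      refine le_trans h8 ?_
      have h9 : A * (1 / (2 * A ^ 2)) ≤ 1 / 2 := by
        have : A * (1 / (2 * A ^ 2)) = 1 / (2 * A) := by field_simp
        rw [this]
        apply one_div_le_one_div_of_le (by norm_num)
        linarith
      have h7' : A * δ ≤ 1 / 128 := by
        have h8 : A * δ ≤ A ^ 5 * δ := by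
          apply mul_le_mul_of_nonneg_right _ hδpos.le
          calc A = A ^ 1 := (pow_one A).symm
            _ ≤ A ^ 5 := pow_le_pow_right₀ hN (by norm_num)
        linarith
      have h10 : A * ((1 / (2 * A ^ 2) + δ) * M) = (A * (1 / (2 * A ^ 2)) + A * δ) * M := by ring
      rw [h10]
      exact mul_le_mul_of_nonneg_right (by linarith) hM
  have h := key (n + 1)
  simp only [hE] at h
  rw [show n + 1 + 1 = n + 2 by ring, show n + 1 - 1 = n by ring] at h
  linarith

theorem hCyc : StCyc := by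
  intro N
  refine ⟨1 / (128 * ((N : ℝ) + 1) ^ 5), by positivity, ?_⟩
  intro b c x m hm hmN ho hp
  exact ⟨fun hb hc n => part1 N b c _ x m hm hmN rfl ho hp hb hc n,
    fun hb hc n => part2 N b c _ x m hm hmN rfl ho hp hb hc n⟩

end Pool.Agent.Helper26.GB

end
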